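import Mathlib

/-!
# A cancellative reduced monoid with ACCP that is not acyclic

The monoid is a submonoid of the discrete Heisenberg group: triples `(a, b, n)` of integers with
`(a, b, n) (a', b', n') = (a + a' + n b', b + b', n + n')`, and we keep the identity, the
elements with `n = 0` and `a > 0`, and all elements with `n ≥ 1`.
-/

namespace Pool.Agent.Results.MP_1d13cc_al.NotAcyclic

universe u

/-- `H` is unit-cancellative: `x * y ≠ x` and `y * x ≠ x` whenever `y` is not a unit. -/
def UnitCancellative (H : Type u) [Monoid H] : Prop :=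
  ∀ x y : H, ¬ IsUnit y → x * y ≠ x ∧ y * x ≠ x

/-- `H` is acyclic: `u * x * v ≠ x` whenever `u` or `v` is not a unit. -/
def Acyclic (H : Type u) [Monoid H] : Prop :=
  ∀ u v x : H, (¬ IsUnit u ∨ ¬ IsUnit v) → u * x * v ≠ x

/-- The principal two-sided ideal `H a H`. -/
def principalIdeal {H : Type u} [Monoid H] (a : H) : Set H :=
  {z | ∃ x y : H, z = x * a * y}

/-- The ascending chain condition on principal two-sided ideals: there is no infinite strictly
increasing sequence of principal ideals. -/
def ACCP (H : Type u) [Monoid H] : Prop :=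
  ¬ ∃ a : ℕ → H, ∀ i, principalIdeal (a i) ⊂ principalIdeal (a (i + 1))

/-- The underlying type of the example. -/
structure Heis where
  /-- the central coordinate -/
  a : ℤ
  /-- the second coordinate -/
  b : ℤ
  /-- the degree -/
  n : ℤ
  /-- the membership condition -/
  mem : (a = 0 ∧ b = 0 ∧ n = 0) ∨ (n = 0 ∧ 0 < a) ∨ 1 ≤ n

namespace Heis

theorem ext' {x y : Heis} (ha : x.a = y.a) (hb : x.b = y.b) (hn : x.n = y.n) : x = y := by
  cases x; cases y; simp_all

/-- The product of the Heisenberg group, restricted. -/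
instance : Mul Heis where
  mul x y := ⟨x.a + y.a + x.n * y.b, x.b + y.b, x.n + y.n, by
    rcases x.mem with ⟨h1, h2, h3⟩ | ⟨h1, h2⟩ | h1 <;>
    rcases y.mem with ⟨g1, g2, g3⟩ | ⟨g1, g2⟩ | g1
    · left; simp [h1, h2, h3, g1, g2, g3]
    · right; left; simp [h1, h3, g1, g2]
    · right; right; simp [h3, g1]
    · right; left; simp [h1, h2, g1, g2, g3]
    · right; left; simp [h1, g1]; omega
    · right; right; simp [h1, g1]
    · right; right; simp [g3, h1]
    · right; right; simp [g1, h1]
    · right; right; omega⟩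

instance : One Heis := ⟨⟨0, 0, 0, Or.inl ⟨rfl, rfl, rfl⟩⟩⟩

@[simp] theorem mul_a (x y : Heis) : (x * y).a = x.a + y.a + x.n * y.b := rfl
@[simp] theorem mul_b (x y : Heis) : (x * y).b = x.b + y.b := rfl
@[simp] theorem mul_n (x y : Heis) : (x * y).n = x.n + y.n := rfl
@[simp] theorem one_a : (1 : Heis).a = 0 := rfl
@[simp] theorem one_b : (1 : Heis).b = 0 := rfl
@[simp] theorem one_n : (1 : Heis).n = 0 := rfl

instance : Monoid Heis where
  mul_assoc x y z := by
    apply ext' <;> simp <;> ring
  one_mul x := by apply ext' <;> simp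
  mul_one x := by apply ext' <;> simp

theorem n_nonneg (x : Heis) : 0 ≤ x.n := by
  rcases x.mem with ⟨h1, h2, h3⟩ | ⟨h1, h2⟩ | h1 <;> omega

theorem a_nonneg {x : Heis} (h : x.n = 0) : 0 ≤ x.a := by
  rcases x.mem with ⟨h1, h2, h3⟩ | ⟨h1, h2⟩ | h1 <;> omega

theorem eq_one {x : Heis} (h : x.n = 0) (h' : x.a = 0) : x = 1 := by
  rcases x.mem with ⟨h1, h2, h3⟩ | ⟨h1, h2⟩ | h1
  · apply ext' <;> simp [h1, h2, h3]
  · omega
  · omega

theorem left_cancel {x y z : Heis} (h : x * y = x * z) : y = z := by
  have h1 := congrArg Heis.a h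
  have h2 := congrArg Heis.b h
  have h3 := congrArg Heis.n h
  simp at h1 h2 h3
  apply ext' _ h2 h3
  rw [h2] at h1
  linarith

theorem right_cancel {x y z : Heis} (h : y * x = z * x) : y = z := by
  have h1 := congrArg Heis.a h
  have h2 := congrArg Heis.b h
  have h3 := congrArg Heis.n h
  simp at h1 h2 h3
  apply ext' _ h2 h3
  rw [h3] at h1
  linarith

/-- The only unit is the identity. -/
theorem isUnit_iff (x : Heis) : IsUnit x ↔ x = 1 := by
  constructor
  · rintro ⟨⟨x, y, hxy, hyx⟩, rfl⟩
    have h1 := congrArg Heis.a hxy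
    have h3 := congrArg Heis.n hxy
    simp at h1 h3
    have := n_nonneg x
    have := n_nonneg y
    have hx : x.n = 0 := by omega
    have hy : y.n = 0 := by omega
    have := a_nonneg hx
    have := a_nonneg hy
    rw [hx] at h1
    exact eq_one hx (by linarith)
  · rintro rfl
    exact isUnit_one

theorem unitCancellative : UnitCancellative Heis := by
  intro x y hy
  rw [isUnit_iff] at hy
  constructor
  · intro h
    exact hy (left_cancel (x := x) (by rw [h, mul_one]))
  · intro h
    exact hy (right_cancel (x := x) (by rw [h, one_mul]))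

theorem self_mem (a : Heis) : a ∈ principalIdeal a := ⟨1, 1, by simp⟩

/-- In a fixed degree `N ≥ 1` any element generates an ideal containing all the others. -/
theorem mem_of_deg {x y : Heis} (h : x.n = y.n) (hx : 1 ≤ x.n) : x ∈ principalIdeal y := by
  -- `x = u * y * v` with `u = (p, q, 0)`, `v = (1, s, 0)`
  set N := y.n with hN
  have hN1 : 1 ≤ N := by omega
  set s : ℤ := -(|x.a - y.a - 1| + 1) with hs
  have hab := le_abs_self (x.a - y.a - 1)
  have hab' := neg_abs_le (x.a - y.a - 1)
  have hp : 0 < x.a - y.a - 1 - N * s := by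
    have : N * s ≤ 1 * s := by
      apply mul_le_mul_of_nonpos_right hN1
      have := abs_nonneg (x.a - y.a - 1)
      omega
    omega
  refine ⟨⟨x.a - y.a - 1 - N * s, x.b - y.b - s, 0, Or.inr (Or.inl ⟨rfl, hp⟩)⟩,
    ⟨1, s, 0, Or.inr (Or.inl ⟨rfl, one_pos⟩)⟩, ?_⟩
  apply ext'
  · simp only [mul_a, mul_n]
    rw [← hN]
    ring
  · simp only [mul_b]
    ring
  · simp [h, hN]

theorem accp : ACCP Heis := by
  rintro ⟨a, ha⟩
  have hmem : ∀ i, ∃ u v : Heis, a i = u * a (i + 1) * v := fun i => by
    obtain ⟨u, v, h⟩ := (ha i).1 (self_mem (a i))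
    exact ⟨u, v, h⟩
  -- the degree is non-increasing
  have hdeg : ∀ i, (a (i + 1)).n ≤ (a i).n := fun i => by
    obtain ⟨u, v, h⟩ := hmem i
    have h3 := congrArg Heis.n h
    simp at h3
    have := n_nonneg u
    have := n_nonneg v
    omega
  -- lexicographic descent on `(n, a)`
  have hstep : ∀ i, (a (i + 1)).n < (a i).n ∨
      ((a (i + 1)).n = 0 ∧ (a i).n = 0 ∧ (a (i + 1)).a < (a i).a) := by
    intro i
    rcases lt_or_eq_of_le (hdeg i) with h | h
    · exact Or.inl h
    · right
      rcases eq_or_ne ((a i).n) 0 with h0 | h0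
      · have h1 : (a (i + 1)).n = 0 := by omega
        refine ⟨h1, h0, ?_⟩
        obtain ⟨u, v, huv⟩ := hmem i
        have h3 := congrArg Heis.n huv
        have h4 := congrArg Heis.a huv
        simp only [mul_n, mul_a] at h3 h4
        have hu0 := n_nonneg u
        have hv0 := n_nonneg v
        have hu : u.n = 0 := by omega
        have hv : v.n = 0 := by omega
        have hua := a_nonneg hu
        have hva := a_nonneg hv
        rw [hu, h1] at h4
        simp only [zero_mul, add_zero] at h4
        by_contra hcon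
        have hu1 : u.a = 0 := by omega
        have hv1 : v.a = 0 := by omega
        have hu2 := eq_one hu hu1
        have hv2 := eq_one hv hv1
        rw [hu2, hv2, one_mul, mul_one] at huv
        have := ha i
        rw [huv] at this
        exact (ssubset_irrefl _ this)
      · exfalso
        have h1 := n_nonneg (a i)
        apply (ha i).2
        rintro z ⟨u, v, rfl⟩
        obtain ⟨p, q, hpq⟩ := mem_of_deg (x := a (i + 1)) (y := a i) h (by omega)
        refine ⟨u * p, q * v, ?_⟩
        rw [hpq]
        simp only [mul_assoc]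
  -- the degree is eventually zero for ever, or descends for ever
  have key : ∀ m : ℕ, ∀ i, (a i).n ≤ m → ∃ j, i ≤ j ∧ (a j).n = 0 := by
    intro m
    induction m with
    | zero =>
      intro i hi
      exact ⟨i, le_refl _, le_antisymm hi (n_nonneg _)⟩
    | succ m ih =>
      intro i hi
      rcases hstep i with h | ⟨h, h', h''⟩
      · obtain ⟨j, hj, hj'⟩ := ih (i + 1) (by push_cast at hi; omega)
        exact ⟨j, by omega, hj'⟩
      · exact ⟨i, le_refl _, h'⟩
  obtain ⟨j, -, hj⟩ := key (a 0).n.toNat 0 (Int.self_le_toNat _)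
  have hall : ∀ k, (a (j + k)).n = 0 := by
    intro k
    induction k with
    | zero => exact hj
    | succ k ih =>
      have h1 := hdeg (j + k)
      have h2 := n_nonneg (a (j + k + 1))
      rw [← add_assoc]
      omega
  have hdesc : ∀ k : ℕ, (a (j + k)).a + k ≤ (a j).a := by
    intro k
    induction k with
    | zero => simp
    | succ k ih =>
      rcases hstep (j + k) with h | ⟨_, _, h⟩
      · have h1 := hall k
        have h2 := n_nonneg (a (j + k + 1))
        omega
      · rw [← add_assoc]
        push_cast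
        omega
  have h1 := hdesc ((a j).a.toNat + 1)
  have h2 := a_nonneg (hall ((a j).a.toNat + 1))
  have h3 := Int.self_le_toNat (a j).a
  push_cast at h1
  omega

/-- The degree one element `x`. -/
def x₀ : Heis := ⟨0, 0, 1, Or.inr (Or.inr (le_refl _))⟩

/-- The left factor. -/
def u₀ : Heis := ⟨1, 2, 0, Or.inr (Or.inl ⟨rfl, one_pos⟩)⟩

/-- The right factor. -/
def v₀ : Heis := ⟨1, -2, 0, Or.inr (Or.inl ⟨rfl, one_pos⟩)⟩

theorem cycle : u₀ * x₀ * v₀ = x₀ := by
  apply ext' <;> simp [u₀, x₀, v₀]

theorem not_acyclic : ¬ Acyclic Heis := by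
  intro h
  refine h u₀ v₀ x₀ (Or.inl ?_) cycle
  rw [isUnit_iff]
  intro h1
  have := congrArg Heis.a h1
  simp [u₀] at this

end Heis

/-- There is a cancellative monoid whose only unit is the identity, which is unit-cancellative,
satisfies the ACCP on principal two-sided ideals, and is not acyclic. -/
theorem result :
    ∃ (H : Type) (_ : Monoid H),
      (∀ x y z : H, x * y = x * z → y = z) ∧ (∀ x y z : H, y * x = z * x → y = z) ∧
      (∀ x : H, IsUnit x → x = 1) ∧
      UnitCancellative H ∧ ACCP H ∧ ¬ Acyclic H :=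
  ⟨Heis, inferInstance, fun _ _ _ h => Heis.left_cancel h, fun _ _ _ h => Heis.right_cancel h,
    fun x h => (Heis.isUnit_iff x).1 h, Heis.unitCancellative, Heis.accp, Heis.not_acyclic⟩

end Pool.Agent.Results.MP_1d13cc_al.NotAcyclic
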